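import Pool.Agent.H.MP_67b01c_gt.F

namespace Pool.Agent.Results.MP_67b01c_gt.Yes
open Pool.Agent.H.MP_67b01c_gt

theorem result : ∃ (H : Type) (V : Set (H → Bool)) (o : Pt V), IsCAT0 V ∧ Cocompact V ∧
    ∃ m₂ m₄ : MetricSpace (Pt V),
      (∀ x y, m₂.dist x y = dp V 2 x y) ∧ (∀ x y, m₄.dist x y = dp V 4 x y) ∧
      (∃ σ, IsBicombing (dp V 2) σ) ∧ (∃ σ, IsBicombing (dp V 4) σ) ∧
      ∀ σ₂ σ₄, IsBicombing (dp V 2) σ₂ → IsBicombing (dp V 4) σ₄ →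
        ¬ ∃ Φ : Bar (dp V 2) σ₂ o → Bar (dp V 4) σ₄ o,
          @Continuous _ _ (coneTop m₂ _) (coneTop m₄ _) Φ ∧
          ∀ x, (Φ ⟨gen (dp V 2) σ₂ o x, Or.inl ⟨x, rfl⟩⟩).1 = gen (dp V 4) σ₄ o x :=
  ⟨W, VV, oo, isCAT0, cocompact, met isCAT0 (by norm_num), met isCAT0 (by norm_num),
    fun _ _ => rfl, fun _ _ => rfl, bic_ex (by norm_num), bic_ex (by norm_num),
    fun _ _ h₂ h₄ ⟨Φ, hc, hΦ⟩ => noext _ _ h₂ h₄ Φ hc hΦ⟩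

end Pool.Agent.Results.MP_67b01c_gt.Yes
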